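import Mathlib
import Pool.Agent.H.MP_1c9ee6_al.A

open Set Filter Topology

namespace Pool.Agent.Results.MP_1c9ee6_al.NoSuitable

/-- a gyrogroup structure on `G` -/
structure Gyro (G : Type) where
  op : G → G → G
  one : G
  neg : G → G
  gyr : G → G → G → G
  one_op : ∀ a, op one a = a
  neg_op : ∀ a, op (neg a) a = one
  gyr_bij : ∀ a b, Function.Bijective (gyr a b)
  gyr_op : ∀ a b x y, gyr a b (op x y) = op (gyr a b x) (gyr a b y)
  assoc : ∀ a b c, op a (op b c) = op (op a b) (gyr a b c)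
  loop : ∀ a b, gyr a b = gyr (op a b) b

/-- subgyrogroup -/
def IsSub {G : Type} (g : Gyro G) (H : Set G) : Prop :=
  H.Nonempty ∧ ∀ a ∈ H, g.neg a ∈ H ∧ ∀ b ∈ H, g.op a b ∈ H

/-- `S` is a suitable set for the subgyrogroup `K` with the subspace topology -/
def Suitable {G : Type} [TopologicalSpace G] (g : Gyro G) (K S : Set G) : Prop :=
  S ⊆ K ∧ DiscreteTopology S ∧ closure (S ∪ {g.one}) ∩ K ⊆ S ∪ {g.one} ∧
    K ⊆ closure (⋂₀ {H | IsSub g H ∧ S ⊆ H})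

theorem result : ∃ (G : Type) (g : Gyro G) (_ : TopologicalSpace G) (_ : LinearOrder G),
    Continuous (fun p : G × G => g.op p.1 p.2) ∧ Continuous g.neg ∧
    (∀ V ∈ 𝓝 g.one, ∃ U ∈ 𝓝 g.one, U ⊆ V ∧ ∀ x y, g.gyr x y '' U = U) ∧ OrderTopology G ∧
    (∃ S, Suitable g univ S) ∧ ∃ H, IsSub g H ∧ ¬ ∃ S, Suitable g H S := by
  obtain ⟨G, _, _, _, h1, h2, ⟨S, s1, s2, s3⟩, K, h3⟩ := Pool.Agent.H.MP_1c9ee6_al.main
  let g : Gyro G := ⟨(· + ·), 0, Neg.neg, fun _ _ => id, zero_add, neg_add_cancel,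
    fun _ _ => Function.bijective_id, fun _ _ _ _ => rfl, fun a b c => (add_assoc a b c).symm,
    fun _ _ => rfl⟩
  have e1 : ∀ H : AddSubgroup G, IsSub g H := fun H =>
    ⟨⟨0, zero_mem _⟩, fun a ha => ⟨neg_mem ha, fun b hb => add_mem ha hb⟩⟩
  have e2 : ∀ S : Set G, ⋂₀ {H | IsSub g H ∧ S ⊆ H} = AddSubgroup.closure S := fun S => by
    refine Subset.antisymm (sInter_subset_of_mem ⟨e1 _, AddSubgroup.subset_closure⟩)
      fun x hx H ⟨⟨⟨a, ha⟩, h⟩, hS⟩ => ?_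
    induction hx using AddSubgroup.closure_induction with
    | mem _ h => exact hS h
    | zero => exact mem_of_eq_of_mem (neg_add_cancel a).symm ((h _ (h a ha).1).2 a ha)
    | add _ _ _ _ h1 h2 => exact (h _ h1).2 _ h2
    | neg _ _ h1 => exact (h _ h1).1
  exact ⟨G, g, inferInstance, inferInstance, continuous_add, continuous_neg,
    fun V hV => ⟨V, hV, subset_rfl, fun _ _ => image_id V⟩, h2,
    ⟨S, subset_univ _, s1, fun x hx => s2.closure_subset hx.1, by rw [e2, s3]; simp⟩,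
    K, e1 K, fun ⟨T, t0, t1, t2, t3⟩ => h3 T t0 t1 t2 (e2 T ▸ t3)⟩

end Pool.Agent.Results.MP_1c9ee6_al.NoSuitable
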